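import Pool.Agent.N65.GP.Defs

set_option autoImplicit false

/-! `CT`: conclusion for relations with constant coefficients (helper91, for project GP of helper65) -/

namespace Pool.Agent.N91.GP

open Complex Polynomial Pool.Agent.N65.GP

theorem bdd_of_periodic {f : ℝ → ℂ} (hf : Continuous f) (hp : ∀ t, f (t + 1) = f t) : ∃ B : ℝ, ∀ t, ‖f t‖ < B := by
  have h1 : IsCompact (Set.range f) :=
    Function.Periodic.compact_of_continuous (f := f) (c := 1) hp one_ne_zero hf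
  obtain ⟨B, hB⟩ := h1.isBounded.exists_norm_le
  exact ⟨B + 1, fun t => lt_of_le_of_lt (hB _ ⟨t, rfl⟩) (by linarith)⟩

theorem bdd_loop (γ : Loop) : ∃ B : ℝ, 0 < B ∧ ∀ t, ‖γ.x t‖ < B ∧ ‖γ.y t‖ < B := by
  obtain ⟨B1, h1⟩ := bdd_of_periodic γ.hx.continuous γ.px
  obtain ⟨B2, h2⟩ := bdd_of_periodic γ.hy.continuous γ.py
  have h0 : 0 < B1 := lt_of_le_of_lt (norm_nonneg _) (h1 0)
  exact ⟨max B1 B2, lt_max_of_lt_left h0, fun t =>
    ⟨(h1 t).trans_le (le_max_left _ _), (h2 t).trans_le (le_max_right _ _)⟩⟩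

theorem bdd_family {n : ℕ} (δ : Fin n → Loop) : ∃ B : ℝ, 0 ≤ B ∧ ∀ i t, ‖(δ i).x t‖ ≤ B ∧ ‖(δ i).y t‖ ≤ B := by
  choose B hB0 hB using fun i => bdd_loop (δ i)
  refine ⟨∑ i, B i, Finset.sum_nonneg fun i _ => (hB0 i).le, fun i t => ?_⟩
  have h1 : B i ≤ ∑ j, B j := Finset.single_le_sum (f := B) (fun j _ => (hB0 j).le) (Finset.mem_univ i)
  exact ⟨(hB i t).1.le.trans h1, (hB i t).2.le.trans h1⟩

theorem t_CT (hH : S_H) (hHD : S_HD) (hSM : S_SM) (hCIR : S_CIR) (hJI : S_JI) (hIM : S_IM) (hPS : S_PS) :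
    S_CT := by
  intro k hk C R b d γ s β β' τ hBd hRel G hG
  -- the regulator for large `m`, `c`
  have hreg : ∀ m c : ℂ, R < ‖m‖ → R < ‖c‖ → ∀ l, (γ l).reg m c = ((γ l).int (ker m c)).im := by
    intro m c hm hc l
    exact hH (γ l) m c (fun t => (hBd l t).2.trans hm) (fun t => (hBd l t).1.trans hc)
  have hcont : ContinuousOn (fun z : ℂ × ℂ => (fun m c => ∑ l, s l * (γ l).reg m c) z.1 z.2)
      {z | R < ‖z.1‖ ∧ R < ‖z.2‖} := by
    refine continuousOn_finsetSum _ fun l _ => ?_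
    have h1 := (hHD (γ l) R (hBd l)).2.2
    have h2 : ContinuousOn (fun z : ℂ × ℂ => s l * ((γ l).int (ker z.1 z.2)).im)
        {z | R < ‖z.1‖ ∧ R < ‖z.2‖} :=
      continuousOn_const.mul (Complex.continuous_im.comp_continuousOn h1)
    refine h2.congr fun z hz => ?_
    show s l * (γ l).reg z.1 z.2 = s l * ((γ l).int (ker z.1 z.2)).im
    rw [hreg z.1 z.2 hz.1 hz.2 l]
  obtain ⟨_, hform⟩ := hSM k C R b (fun m c => ∑ l, s l * (γ l).reg m c) β β' τ hk hcont hRel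
  -- the circles
  obtain ⟨RG, hRG⟩ := hG
  set ρ0 : ℝ := max R RG + 1 with hρ0
  have hρR : R < ρ0 := by
    have := le_max_left R RG
    linarith
  have hρG : RG < ρ0 := by
    have := le_max_right R RG
    linarith
  have hρpos : 0 < ρ0 := b.pos.trans hρR
  obtain ⟨δ, hδ, hδC⟩ := hCIR k C R b ρ0 hρR
  have hδG : ∀ i, (δ i).int (fun x y => G.evalEval x y) = 0 := by
    intro i
    refine hRG (δ i) (hδC i) fun t => ?_
    rw [(hδ i).1 t, norm_mul, Complex.norm_real, Real.norm_of_nonneg hρpos.le]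
    have h1 : (2 * Real.pi * t * Complex.I : ℂ) = ((2 * Real.pi * t : ℝ) : ℂ) * Complex.I := by
      push_cast
      ring
    rw [h1, Complex.norm_exp_ofReal_mul_I, mul_one]
    exact hρG
  obtain ⟨R', hR'⟩ := hJI k C R b ρ0 δ hρR hδ
  obtain ⟨B, hB0, hB⟩ := bdd_family δ
  set R2 : ℝ := max (max R R') (B + 1) with hR2
  have hR2a : R ≤ R2 := (le_max_left _ _).trans (le_max_left _ _)
  have hR2b : R' ≤ R2 := (le_max_right _ _).trans (le_max_left _ _)
  have hR2c : B < R2 := lt_of_lt_of_le (by linarith) (le_max_right _ _)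
  -- the family
  set Γ : Fin d ⊕ Fin C.n → Loop := Sum.elim γ δ with hΓ
  set w : Fin d ⊕ Fin C.n → ℝ := Sum.elim s (fun i => β i / (2 * Real.pi)) with hw
  have hBdΓ : Bd Γ R2 := by
    intro l t
    rcases l with l | i
    · exact ⟨(hBd l t).1.trans_le hR2a, (hBd l t).2.trans_le hR2a⟩
    · exact ⟨(hB i t).1.trans_lt hR2c, (hB i t).2.trans_lt hR2c⟩
  have hsum : ∀ g : ℂ → ℂ → ℂ, ∑ l, (w l : ℂ) * (Γ l).int g =
      ∑ l, (s l : ℂ) * (γ l).int g + ∑ i, ((β i / (2 * Real.pi) : ℝ) : ℂ) * (δ i).int g := by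
    intro g
    rw [Fintype.sum_sum_type]
    rfl
  set κ : ℝ := ∑ i, β i * Real.log ‖C.α i‖ + τ with hκ
  have him : ∀ m c : ℂ, R2 < ‖m‖ → R2 < ‖c‖ → C.F c m ≠ 0 →
      (∑ l, (w l : ℂ) * (Γ l).int (ker m c)).im = κ := by
    intro m c hm hc hF
    have hm1 : R < ‖m‖ := hR2a.trans_lt hm
    have hc1 : R < ‖c‖ := hR2a.trans_lt hc
    have h1 := hform m c hm1 hc1 hF
    have h2 := hR' m c (hR2b.trans_lt hm) (hR2b.trans_lt hc) hF
    rw [hsum, Complex.add_im, Complex.im_sum, Complex.im_sum]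
    simp only [Complex.im_ofReal_mul]
    have h3 : ∑ l, s l * ((γ l).int (ker m c)).im = ∑ l, s l * (γ l).reg m c :=
      Finset.sum_congr rfl fun l _ => by rw [hreg m c hm1 hc1 l]
    have h4 : ∑ l, s l * (γ l).reg m c =
        ∑ i, β i * (Real.log ‖b.yb i c - m‖ - Real.log ‖b.xb i m - c‖) + τ := h1
    rw [h3, h4, hκ]
    have h5 : ∑ i, β i * (Real.log ‖b.yb i c - m‖ - Real.log ‖b.xb i m - c‖) =
        ∑ i, β i * Real.log ‖C.α i‖ - ∑ i, β i / (2 * Real.pi) * ((δ i).int (ker m c)).im := by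
      rw [← Finset.sum_sub_distrib]
      refine Finset.sum_congr rfl fun i _ => ?_
      rw [h2 i]
      ring
    rw [h5]
    ring
  have hzero : ∀ m c : ℂ, R2 < ‖m‖ → R2 < ‖c‖ → ∑ l, (w l : ℂ) * (Γ l).int (ker m c) = 0 := by
    intro m c hm hc
    refine hIM (Fin d ⊕ Fin C.n) Γ w m R2 κ (Set.range fun i => b.xb i m) (Set.finite_range _) hm hBdΓ ?_ c hc
    intro c' hc' hZ
    refine him m c' hm hc' fun h0 => hZ ?_
    obtain ⟨i, hi⟩ := (b.rootX m (hR2a.trans_lt hm) c').1 h0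
    exact ⟨i, hi.symm⟩
  have hfin := hPS (Fin d ⊕ Fin C.n) Γ w R2 hBdΓ hzero G
  rw [hsum] at hfin
  simp only [hδG, mul_zero, Finset.sum_const_zero, add_zero] at hfin
  exact hfin

end Pool.Agent.N91.GP
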